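import Mathlib
import Pool.Agent.Lib.MP_e763ea_al.Ext

/-!
# The Tamura-Schein problem for finite semigroups: counterexamples of every order at least 73

For every `n ≥ 73` there are two non-isomorphic semigroups of order `n`, both with zero and with
all products of three elements equal to zero, whose power semigroups are isomorphic.
-/

set_option autoImplicit false

namespace Pool.Agent.Results.MP_e763ea_al.EveryOrder

/-- The power semigroup of `S`: the nonempty subsets of `S`. -/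
def PowerSemigroup (S : Type) : Type := {A : Set S // A.Nonempty}

/-- The product of two nonempty subsets is `A B = {a b : a ∈ A, b ∈ B}`. -/
instance instPower (S : Type) [Semigroup S] : Semigroup (PowerSemigroup S) where
  mul A B := ⟨{x | ∃ a ∈ A.1, ∃ b ∈ B.1, x = a * b}, by
    obtain ⟨a, ha⟩ := A.2
    obtain ⟨b, hb⟩ := B.2
    exact ⟨a * b, a, ha, b, hb, rfl⟩⟩
  mul_assoc A B C := by
    refine Subtype.ext (Set.ext fun x => ?_)
    constructor
    · rintro ⟨_, ⟨a, ha, b, hb, rfl⟩, c, hc, rfl⟩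
      exact ⟨a, ha, b * c, ⟨b, hb, c, hc, rfl⟩, mul_assoc a b c⟩
    · rintro ⟨a, ha, _, ⟨b, hb, c, hc, rfl⟩, rfl⟩
      exact ⟨a * b, ⟨a, ha, b, hb, rfl⟩, c, hc, (mul_assoc a b c).symm⟩

/-- `S` has a zero `o`, and every product of three elements is `o`. -/
def CubeZero (S : Type) [Semigroup S] : Prop :=
  ∃ o : S, (∀ x : S, o * x = o ∧ x * o = o) ∧ ∀ x y w : S, x * y * w = o

/-- **Theorem.** For every `n ≥ 73` there are two non-isomorphic semigroups of order `n`, with zero
and with all products of three elements equal to zero, whose power semigroups are isomorphic. -/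
theorem result (n : ℕ) (hn : 73 ≤ n) :
    ∃ (S₁ S₂ : Type) (_ : Semigroup S₁) (_ : Semigroup S₂),
      Nat.card S₁ = n ∧ Nat.card S₂ = n ∧ CubeZero S₁ ∧ CubeZero S₂ ∧
        Nonempty (PowerSemigroup S₁ ≃* PowerSemigroup S₂) ∧ ¬ Nonempty (S₁ ≃* S₂) := by
  obtain ⟨j, rfl⟩ := Nat.exists_eq_add_of_le hn
  refine ⟨MPe763ea.Sg (MPe763ea.inTab (Fin j) (MPe763ea.Tab MPe763ea.al)),
    MPe763ea.Sg (MPe763ea.inTab (Fin j) (MPe763ea.Tab MPe763ea.be)), inferInstance, inferInstance,
    MPe763ea.card_ext j _, MPe763ea.card_ext j _, ?_, ?_, ?_, ?_⟩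
  · exact ⟨MPe763ea.sz _, fun x => ⟨MPe763ea.sz_mul _ x, MPe763ea.mul_sz _ x⟩,
      MPe763ea.mul_mul_ext _⟩
  · exact ⟨MPe763ea.sz _, fun x => ⟨MPe763ea.sz_mul _ x, MPe763ea.mul_sz _ x⟩,
      MPe763ea.mul_mul_ext _⟩
  · obtain ⟨f, hf⟩ := MPe763ea.iso_ext (Fin j)
    have key : ∀ (S : Type) [Semigroup S] (A B : {A : Set S // A.Nonempty}),
        Set.image2 (fun a b => a * b) A.1 B.1 = {x | ∃ a ∈ A.1, ∃ b ∈ B.1, x = a * b} := by
      intro S _ A B
      ext x
      constructor
      · rintro ⟨a, ha, b, hb, h⟩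
        exact ⟨a, ha, b, hb, h.symm⟩
      · rintro ⟨a, ha, b, hb, h⟩
        exact ⟨a, ha, b, hb, h.symm⟩
    refine ⟨⟨f, fun A B => ?_⟩⟩
    apply Subtype.ext
    refine Eq.trans ?_ ((hf A B).trans (key _ (f A) (f B)))
    congr 2
    exact Subtype.ext (key _ A B).symm
  · intro h
    exact h.elim (MPe763ea.not_iso_ext (Fin j)).false

end Pool.Agent.Results.MP_e763ea_al.EveryOrder
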